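import Pool.Agent.V11238.GR.Gen

/-!
A computable graph on `ℕ` with a computable bound on the neighbours and chromatic number two has a
computable proper colouring with four colours.
-/

set_option autoImplicit false

namespace Pool.Agent.V11238.GR

open Encodable Pool.Agent.Helper446 Pool.Agent.Helper446.Defs Pool.Agent.Helper446.Oracle
  Pool.Agent.Helper446.RE
open Nat.Partrec (Code)

/-- selection of computable functions -/
theorem exists_comp {α β : Type*} [Primcodable α] [Primcodable β] {q : α → β → Prop}
    (hq : REPred fun x : α × β => q x.1 x.2) (h : ∀ a, ∃ b, q a b) :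
    ∃ f : α → β, Computable f ∧ ∀ a, q a (f a) := by
  obtain ⟨g, hg, h1, h2⟩ := uniformize hq
  have hd : ∀ a, (g a).Dom := fun a => (h1 a).2 (h a)
  refine ⟨fun a => (g a).get (hd a), hg.of_eq_tot fun a => Part.get_mem (hd a), fun a => ?_⟩
  exact h2 a _ (Part.get_mem (hd a))

/-- the code of a finite set decodes to a list of its elements -/
theorem enc_fin (s : Finset ℕ) : ∃ l : List ℕ, decode (α := List ℕ) (encode s) = some l ∧
    ∀ y, y ∈ s ↔ y ∈ l := by
  have h := Encodable.encodek s
  generalize encode s = n at h ⊢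
  unfold Finset.encodable at h
  have h' := h
  have e := @decode_ofEquiv {m : Multiset ℕ // m.Nodup} (Finset ℕ)
    (@Subtype.encodable (Multiset ℕ) Multiset.Nodup Multiset.encodable fun a =>
    @Multiset.nodupDecidable ℕ (decidableEqOfEncodable ℕ) a) 
    { toFun := fun ⟨a, b⟩ => ⟨a, b⟩, invFun := fun ⟨a, b⟩ => ⟨a, b⟩ } n
  have h2 := e.symm.trans h
  clear h h' e
  simp only [Option.map_eq_some_iff] at h2
  obtain ⟨m, hm, rfl⟩ := h2
  -- decode in the subtype
  simp only [decode, decodeSubtype, Option.bind_eq_some_iff] at hm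
  obtain ⟨m', hm', hm''⟩ := hm
  split_ifs at hm'' with h4
  obtain rfl := Option.some.inj hm''
  simp only [decodeMultiset, Option.map_eq_map, Option.map_eq_some_iff] at hm'
  obtain ⟨l, hl, rfl⟩ := hm'
  refine ⟨l, hl, fun y => ?_⟩
  simp

/-- exclusive or -/
def xr (a b : Bool) : Bool := (a && !b) || (!a && b)

theorem four_colour (G : SimpleGraph ℕ) (hG : ComputablePred fun p : ℕ × ℕ => G.Adj p.1 p.2)
    (b : ℕ → ℕ) (hb : Computable b) (hbd : ∀ x y, G.Adj x y → y < b x)
    (hcol : G.Colorable 2) :
    ∃ c : ℕ → ℕ, Computable c ∧ (∀ x, c x < 4) ∧ ∀ x y, G.Adj x y → c x ≠ c y := by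
  classical
  -- the layers
  let h : ℕ → ℕ := fun n => Nat.rec (motive := fun _ => ℕ) 0
    (fun _ m => Nat.rec (motive := fun _ => ℕ) (m + 1) (fun i s => s + b i) m) n
  have hh : Computable h := by
    refine Computable.nat_rec (f := fun n : ℕ => n) (g := fun _ : ℕ => (0 : ℕ))
      (h := fun (_ : ℕ) (p : ℕ × ℕ) => (Nat.rec (motive := fun _ => ℕ) (p.2 + 1)
        (fun i s => s + b i) p.2 : ℕ)) Computable.id (Computable.const 0) ?_
    have h1 : Computable fun x : ℕ × (ℕ × ℕ) =>
        Nat.rec (motive := fun _ => ℕ) (x.2.2 + 1) (fun i s => s + b i) x.2.2 := by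
      refine Computable.nat_rec (f := fun x : ℕ × (ℕ × ℕ) => x.2.2)
        (g := fun x : ℕ × (ℕ × ℕ) => x.2.2 + 1)
        (h := fun (_ : ℕ × (ℕ × ℕ)) (y : ℕ × ℕ) => y.2 + b y.1) (by fun_prop) (by fun_prop) ?_
      have h2 : Computable fun x : (ℕ × (ℕ × ℕ)) × (ℕ × ℕ) => x.2.2 + b x.2.1 :=
        cadd (by fun_prop) (hb.comp (by fun_prop))
      exact h2
    exact h1
  have h0 : h 0 = 0 := rfl
  have hS : ∀ n, h (n + 1) = Nat.rec (motive := fun _ => ℕ) (h n + 1)
      (fun i s => s + b i) (h n) := fun n => rfl
  have hrec : ∀ c m : ℕ, c ≤ Nat.rec (motive := fun _ => ℕ) c (fun i s => s + b i) m ∧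
      ∀ i < m, b i ≤ Nat.rec (motive := fun _ => ℕ) c (fun i s => s + b i) m := by
    intro c m
    induction m with
    | zero => exact ⟨le_rfl, by intro i hi; omega⟩
    | succ m ih =>
      refine ⟨?_, fun i hi => ?_⟩
      · show c ≤ _ + b m
        have := ih.1; omega
      · show b i ≤ _ + b m
        rcases Nat.lt_succ_iff_lt_or_eq.1 hi with h' | rfl
        · have := ih.2 i h'; omega
        · omega
  have hlt : ∀ n, h n < h (n + 1) := by
    intro n
    rw [hS]
    have := (hrec (h n + 1) (h n)).1
    omega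
  have hb' : ∀ n, ∀ x < h n, b x ≤ h (n + 1) := by
    intro n x hx
    rw [hS]
    exact (hrec (h n + 1) (h n)).2 x hx
  have hmono : StrictMono h := strictMono_nat_of_lt_succ hlt
  -- the layer of a vertex
  have hlay : ∀ x, ∃ n, h n ≤ x ∧ x < h (n + 1) := by
    intro x
    have hex : ∃ n, x < h (n + 1) := ⟨x, by have := hmono.id_le (x + 1); simp at this; omega⟩
    refine ⟨Nat.find hex, ?_, Nat.find_spec hex⟩
    by_contra hc
    push Not at hc
    rcases Nat.eq_zero_or_pos (Nat.find hex) with h1 | h1
    · rw [h1, h0] at hc; omega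
    · exact Nat.find_min hex (m := Nat.find hex - 1) (by omega)
        (by rw [Nat.sub_add_cancel h1]; exact hc)
  obtain ⟨lay, hlayc, hlay'⟩ := exists_comp (q := fun x n => h n ≤ x ∧ x < h (n + 1))
    (RE.and (RE.le (f := fun a : ℕ × ℕ => h a.2) (g := fun a : ℕ × ℕ => a.1)
        (hh.comp (Computable.snd)) (by fun_prop))
      (RE.lt (f := fun a : ℕ × ℕ => a.1) (g := fun a : ℕ × ℕ => h (a.2 + 1)) (by fun_prop)
        (hh.comp (f := h) (g := fun a : ℕ × ℕ => a.2 + 1) (by fun_prop)))) hlay
  -- two-colourings of initial segments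
  obtain ⟨C⟩ := hcol
  have hAdjd : Computable fun p : ℕ × ℕ => decide (G.Adj p.1 p.2) := cdecide hG
  have hlist : ∀ m : ℕ, ∃ l : List Bool, ∀ x < m, ∀ y < m,
      ((!decide (G.Adj x y)) || xr (decide (l[x]? = some true)) (decide (l[y]? = some true)))
        = true := by
    intro m
    refine ⟨(List.range m).map fun x => decide (C x = 0), fun x hx y hy => ?_⟩
    by_cases hxy : G.Adj x y
    · have h1 : C x ≠ C y := C.valid hxy
      have h2 : (decide (C x = 0)) ≠ (decide (C y = 0)) := by
        intro h3
        apply h1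
        have h4 : (C x = 0) ↔ (C y = 0) := by simpa using h3
        rcases Fin.exists_fin_two.1 ⟨C x, rfl⟩ with h5 | h5 <;>
        rcases Fin.exists_fin_two.1 ⟨C y, rfl⟩ with h6 | h6
        · rw [h5, h6]
        · rw [h5, h6] at h4; simp at h4
        · rw [h5, h6] at h4; simp at h4
        · rw [h5, h6]
      have h7 : (((List.range m).map fun x => decide (C x = 0))[x]? = some true) ↔ C x = 0 := by
        simp [List.getElem?_range hx]
      have h8 : (((List.range m).map fun x => decide (C x = 0))[y]? = some true) ↔ C y = 0 := by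
        simp [List.getElem?_range hy]
      simp only [h7, h8]
      unfold xr
      by_cases h9 : C x = 0 <;> by_cases h10 : C y = 0 <;> simp [h9, h10] at h2 ⊢
    · simp [hxy]
  have hPre : REPred fun x : ℕ × List Bool => ∀ y < x.1, ∀ z < x.1,
      ((!decide (G.Adj y z)) || xr (decide (x.2[y]? = some true))
        (decide (x.2[z]? = some true))) = true := by
    refine RE.all_lt (p := fun (x : ℕ × List Bool) y => ∀ z < x.1,
      ((!decide (G.Adj y z)) || xr (decide (x.2[y]? = some true))
        (decide (x.2[z]? = some true))) = true) ?_ (by fun_prop)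
    refine RE.all_lt (p := fun (x : (ℕ × List Bool) × ℕ) z =>
      ((!decide (G.Adj x.2 z)) || xr (decide (x.1.2[x.2]? = some true))
        (decide (x.1.2[z]? = some true))) = true) ?_ (by fun_prop)
    refine RE.of_bool ?_
    have h1 : Computable fun a : ((ℕ × List Bool) × ℕ) × ℕ => decide (G.Adj a.1.2 a.2) :=
      hAdjd.comp (g := fun a : ((ℕ × List Bool) × ℕ) × ℕ => (a.1.2, a.2)) (by fun_prop)
    have h2 : Computable fun a : ((ℕ × List Bool) × ℕ) × ℕ =>
        decide (a.1.1.2[a.1.2]? = some true) :=
      cdecide (cp_eq (by fun_prop) (by fun_prop))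
    have h3 : Computable fun a : ((ℕ × List Bool) × ℕ) × ℕ =>
        decide (a.1.1.2[a.2]? = some true) :=
      cdecide (cp_eq (by fun_prop) (by fun_prop))
    exact cor (cnot h1) (cor (cand h2 (cnot h3)) (cand (cnot h2) h3))
  obtain ⟨L, hLc, hL⟩ := exists_comp (q := fun (m : ℕ) (l : List Bool) => ∀ y < m, ∀ z < m,
      ((!decide (G.Adj y z)) || xr (decide (l[y]? = some true)) (decide (l[z]? = some true)))
        = true) hPre hlist
  -- the colouring
  let Lx : ℕ → List Bool := fun x => L (h (lay x + 1))
  have hLx : Computable Lx := hLc.comp (hh.comp (by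
    have : Computable fun x => lay x + 1 := by
      exact cadd hlayc (by fun_prop)
    exact this))
  have hmod : Computable fun x => (lay x) % 2 :=
    (Primrec.nat_mod.to_comp).comp hlayc (Computable.const 2)
  have hbit : Computable fun x => (if (Lx x)[x]? = some true then 1 else 0 : ℕ) :=
    cite (cp_eq (cgetElem hLx (by fun_prop)) (by fun_prop)) (by fun_prop) (by fun_prop)
  refine ⟨fun x => 2 * ((lay x) % 2) + (if (Lx x)[x]? = some true then 1 else 0), ?_, ?_, ?_⟩
  · exact cadd (cmul (by fun_prop) hmod) hbit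
  · intro x
    dsimp only
    split_ifs <;> omega
  · -- properness
    have main : ∀ x y, x < y → G.Adj x y →
        2 * ((lay x) % 2) + (if (Lx x)[x]? = some true then 1 else 0) ≠
        2 * ((lay y) % 2) + (if (Lx y)[y]? = some true then 1 else 0) := by
      intro x y hxy hadj heq
      have h1 := hlay' x
      have h2 := hlay' y
      have h3 : y < h (lay x + 2) := lt_of_lt_of_le (hbd x y hadj) (hb' (lay x + 1) x h1.2)
      have h4 : lay x ≤ lay y := by
        by_contra hc
        push Not at hc
        have : h (lay y + 1) ≤ h (lay x) := hmono.monotone hc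
        omega
      have h5 : lay y < lay x + 2 := by
        by_contra hc
        push Not at hc
        have : h (lay x + 2) ≤ h (lay y) := hmono.monotone hc
        omega
      have h6 : lay y = lay x := by
        split_ifs at heq <;> omega
      have hLxy : Lx y = Lx x := by simp only [Lx, h6]
      rw [hLxy, h6] at heq
      rw [h6] at h2
      have h7 := hL (h (lay x + 1)) x h1.2 y h2.2
      have h10 : L (h (lay x + 1)) = Lx x := rfl
      rw [h10] at h7
      by_cases h11 : (Lx x)[x]? = some true <;> by_cases h12 : (Lx x)[y]? = some true <;>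
        simp [h11, h12, hadj, xr] at h7 heq
    intro x y hadj
    rcases lt_trichotomy x y with h1 | h1 | h1
    · exact main x y h1 hadj
    · exact absurd h1 hadj.ne
    · exact (main y x h1 hadj.symm).symm

end Pool.Agent.V11238.GR
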