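import Pool.Agent.Helper446.Oracle

/-!
A 1-generic set below the halting problem: it is not computable, it is Turing reducible to the
halting set, and every c.e. set Turing reducible to it is computable.
-/

set_option autoImplicit false

namespace Pool.Agent.V11238.GR

open Encodable Pool.Agent.Helper446 Pool.Agent.Helper446.Defs Pool.Agent.Helper446.Oracle
  Pool.Agent.Helper446.RE
open Nat.Partrec (Code)

/-- The halting set. -/
def Hs : Set ℕ := {n | ((Denumerable.ofNat Code n).eval n).Dom}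

section
variable {α β : Type*} [Primcodable α] [Primcodable β]

/-- many-one completeness of the halting set -/
theorem m_complete {p : α → Prop} (hp : REPred p) :
    ∃ f : α → ℕ, Computable f ∧ ∀ a, p a ↔ f a ∈ Hs := by
  have h1 : Partrec fun x : α × ℕ => Part.assert (p x.1) fun _ => Part.some () := by
    have := Partrec.comp hp (Computable.fst (α := α) (β := ℕ))
    exact this
  -- as a partial recursive function of natural numbers
  have h2 : Partrec fun n : ℕ => (decode (α := α) n.unpair.1 : Part α).bind fun a =>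
      (Part.assert (p a) fun _ => Part.some ()).map fun _ => 0 := by
    refine Partrec.bind ?_ ?_
    · exact Computable.ofOption (Computable.decode.comp
        (Computable.fst.comp Computable.unpair))
    · refine Partrec.map ?_ (Computable.const 0)
      exact Partrec.comp hp Computable.snd
  obtain ⟨c, hc⟩ := Code.exists_code.1 (Partrec.nat_iff.1 h2)
  refine ⟨fun a => encode (Code.curry c (encode a)), ?_, fun a => ?_⟩
  · exact Computable.encode.comp
      ((Code.primrec₂_curry.comp (Primrec.const c) Primrec.encode).to_comp)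
  · unfold Hs
    simp only [Set.mem_ofPred_eq, Denumerable.ofNat_encode, Code.eval_curry, hc,
      Nat.unpair_pair, encodek, Part.coe_some, Part.bind_some, Part.map_Dom]
    constructor
    · intro h; exact ⟨h, trivial⟩
    · rintro ⟨h, -⟩; exact h

theorem REIn.not_re {p : α → Prop} (hp : REPred p) : REIn Hs fun a => ¬ p a := by
  obtain ⟨f, hf, h⟩ := m_complete hp
  refine (REIn.not_mem (A := Hs) hf).of_eq fun a => ?_
  rw [h a]

end

/-- the `e`-th c.e. set of strings -/
def Wc (e : ℕ) (σ : List Bool) : Prop := ∃ s, wst (List Bool) e s σ = true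

theorem re_Wc : REPred fun x : ℕ × List Bool => Wc x.1 x.2 := by
  refine exN (p := fun (x : ℕ × List Bool) s => wst (List Bool) x.1 s x.2 = true) (of_bool ?_)
  exact wst_comp.comp (f := fun p : (ℕ × ℕ) × List Bool => wst (List Bool) p.1.1 p.1.2 p.2)
    (g := fun x : (ℕ × List Bool) × ℕ => ((x.1.1, x.2), x.1.2)) (by fun_prop)

/-- `σ` is a prefix of `τ` -/
theorem re_prefix {α : Type*} [Primcodable α] {f g : α → List Bool} (hf : Computable f)
    (hg : Computable g) : REPred fun a => f a <+: g a := by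
  refine (ex (p := fun a (t : List Bool) => f a ++ t = g a) (RE.eq ?_ ?_)).of_eq fun a => Iff.rfl
  · fun_prop
  · fun_prop

/-- extension relation -/
def r (x : ℕ × List Bool) (ρ : List Bool) : Prop := x.2 <+: ρ ∧ Wc x.1 ρ

theorem re_r : REPred fun x : (ℕ × List Bool) × List Bool => r x.1 x.2 := by
  refine RE.and (re_prefix (by fun_prop) (by fun_prop)) ?_
  exact RE.comp re_Wc (f := fun x : (ℕ × List Bool) × List Bool => (x.1.1, x.2)) (by fun_prop)

theorem exists_sel : ∃ f : ℕ × List Bool →. List Bool, Partrec f ∧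
    (∀ a, (f a).Dom ↔ ∃ b, r a b) ∧ ∀ a, ∀ b ∈ f a, r a b := uniformize re_r

/-- canonical selection -/
noncomputable def sel : ℕ × List Bool →. List Bool := exists_sel.choose

theorem sel_partrec : Partrec sel := exists_sel.choose_spec.1
theorem sel_dom (a : ℕ × List Bool) : (sel a).Dom ↔ ∃ b, r a b := exists_sel.choose_spec.2.1 a
theorem sel_mem {a : ℕ × List Bool} {b : List Bool} (h : b ∈ sel a) : r a b :=
  exists_sel.choose_spec.2.2 a b h

/-- one step of the construction -/
def Stp (e : ℕ) (σ τ : List Bool) : Prop :=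
  (∃ ρ, ρ ∈ sel (e, σ) ∧ τ = ρ ++ [false]) ∨ ((¬ ∃ ρ, r (e, σ) ρ) ∧ τ = σ ++ [false])

theorem re_sel : REPred fun x : (ℕ × List Bool) × List Bool => x.2 ∈ sel x.1 := by
  have h1 : Partrec fun x : (ℕ × List Bool) × List Bool => (sel x.1).bind fun y =>
      (if encode y = encode x.2 then Part.some () else Part.none) := by
    refine Partrec.bind (sel_partrec.comp Computable.fst) ?_
    have h2 : PrimrecPred fun z : ((ℕ × List Bool) × List Bool) × List Bool =>
        encode z.2 = encode z.1.2 :=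
      Primrec.eq.comp (Primrec.encode.comp Primrec.snd)
        (Primrec.encode.comp (Primrec.snd.comp Primrec.fst))
    have h3 : Partrec fun z : ((ℕ × List Bool) × List Bool) × List Bool =>
        (cond (decide (encode z.2 = encode z.1.2)) (Part.some ())
          Part.none : Part Unit) :=
      Partrec.cond h2.decide.to_comp (Computable.const ()).partrec Partrec.none
    refine h3.of_eq fun z => ?_
    by_cases h : encode z.2 = encode z.1.2 <;> simp [h]
  refine h1.dom_re.of_eq fun x => ?_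
  simp only [Part.bind_dom]
  constructor
  · rintro ⟨h, h2⟩
    by_cases h3 : encode ((sel x.1).get h) = encode x.2
    · rw [← encode_injective h3]; exact Part.get_mem h
    · rw [if_neg h3] at h2
      exact h2.elim
  · intro h
    refine ⟨Part.dom_iff_mem.2 ⟨_, h⟩, ?_⟩
    have h3 : (sel x.1).get (Part.dom_iff_mem.2 ⟨_, h⟩) = x.2 :=
      Part.get_eq_of_mem h _
    rw [h3, if_pos rfl]
    trivial

theorem stp_rein : REIn Hs fun x : (ℕ × List Bool) × List Bool => Stp x.1.1 x.1.2 x.2 := by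
  refine REIn.or (REIn.of_re ?_) (REIn.and ?_ (REIn.of_re ?_))
  · refine ex (p := fun (x : (ℕ × List Bool) × List Bool) (ρ : List Bool) =>
      ρ ∈ sel (x.1.1, x.1.2) ∧ x.2 = ρ ++ [false]) ?_
    refine RE.and ?_ (RE.eq (by fun_prop) (by fun_prop))
    exact RE.comp re_sel (f := fun x : ((ℕ × List Bool) × List Bool) × List Bool =>
      ((x.1.1.1, x.1.1.2), x.2)) (by fun_prop)
  · refine REIn.not_re ?_
    refine ex (p := fun (x : (ℕ × List Bool) × List Bool) (ρ : List Bool) =>
      r (x.1.1, x.1.2) ρ) ?_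
    exact RE.comp re_r (f := fun x : ((ℕ × List Bool) × List Bool) × List Bool =>
      ((x.1.1.1, x.1.1.2), x.2)) (by fun_prop)
  · exact RE.eq (by fun_prop) (by fun_prop)

theorem stp_exists (e : ℕ) (σ : List Bool) : ∃ τ, Stp e σ τ := by
  by_cases h : ∃ ρ, r (e, σ) ρ
  · have h1 := (sel_dom (e, σ)).2 h
    exact ⟨_, Or.inl ⟨_, Part.get_mem h1, rfl⟩⟩
  · exact ⟨_, Or.inr ⟨h, rfl⟩⟩

theorem stp_unique {e : ℕ} {σ τ τ' : List Bool} (h : Stp e σ τ) (h' : Stp e σ τ') : τ = τ' := by
  rcases h with ⟨ρ, h1, h2⟩ | ⟨h1, h2⟩ <;> rcases h' with ⟨ρ', h3, h4⟩ | ⟨h3, h4⟩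
  · rw [h2, h4, Part.mem_unique h1 h3]
  · exact absurd ⟨ρ, sel_mem h1⟩ h3
  · exact absurd ⟨ρ', sel_mem h3⟩ h1
  · rw [h2, h4]

/-- the sequence of strings -/
noncomputable def sq : ℕ → List Bool
  | 0 => []
  | e + 1 => (stp_exists e (sq e)).choose

theorem sq_step (e : ℕ) : Stp e (sq e) (sq (e + 1)) := (stp_exists e (sq e)).choose_spec

theorem sq_iff (e : ℕ) (σ : List Bool) : sq e = σ ↔ ∃ l : List (List Bool),
    (l[0]? = some [] ∧ l[e]? = some σ) ∧ ∀ i < e, ∃ a b : List Bool,
      l[i]? = some a ∧ l[i + 1]? = some b ∧ Stp i a b := by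
  constructor
  · rintro rfl
    refine ⟨(List.range (e + 1)).map sq, ⟨by simp [sq], by simp⟩, fun i hi => ?_⟩
    refine ⟨sq i, sq (i + 1), ?_, ?_, sq_step i⟩
    · simp [List.getElem?_range (show i < e + 1 by omega)]
    · simp [List.getElem?_range (show i + 1 < e + 1 by omega)]
  · rintro ⟨l, ⟨h0, he⟩, h⟩
    have key : ∀ i ≤ e, l[i]? = some (sq i) := by
      intro i
      induction i with
      | zero => intro _; rw [h0]; rfl
      | succ i ih =>
        intro hi
        obtain ⟨a, b, h1, h2, h3⟩ := h i (by omega)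
        rw [ih (by omega)] at h1
        obtain rfl := Option.some.inj h1
        rw [h2, stp_unique h3 (sq_step i)]
    have := key e le_rfl
    rw [he] at this
    exact (Option.some.inj this).symm

theorem sq_rein : REIn Hs fun x : ℕ × List Bool => sq x.1 = x.2 := by
  refine REIn.of_eq (S := fun x : ℕ × List Bool => ∃ l : List (List Bool),
    (l[0]? = some [] ∧ l[x.1]? = some x.2) ∧ ∀ i < x.1, ∃ a b : List Bool,
      l[i]? = some a ∧ l[i + 1]? = some b ∧ Stp i a b) ?_ (fun x => (sq_iff x.1 x.2).symm)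
  refine REIn.ex (S := fun (x : ℕ × List Bool) (l : List (List Bool)) =>
    (l[0]? = some [] ∧ l[x.1]? = some x.2) ∧ ∀ i < x.1, ∃ a b : List Bool,
      l[i]? = some a ∧ l[i + 1]? = some b ∧ Stp i a b) ?_
  refine REIn.and (REIn.of_re (RE.and (RE.eq (by fun_prop) (by fun_prop))
    (RE.eq (by fun_prop) (by fun_prop)))) ?_
  refine REIn.all_lt (S := fun (x : (ℕ × List Bool) × List (List Bool)) (i : ℕ) =>
    ∃ a b : List Bool, x.2[i]? = some a ∧ x.2[i + 1]? = some b ∧ Stp i a b) ?_ (by fun_prop)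
  refine REIn.ex (S := fun (x : ((ℕ × List Bool) × List (List Bool)) × ℕ) (a : List Bool) =>
    ∃ b : List Bool, x.1.2[x.2]? = some a ∧ x.1.2[x.2 + 1]? = some b ∧ Stp x.2 a b) ?_
  refine REIn.ex (S := fun (x : (((ℕ × List Bool) × List (List Bool)) × ℕ) × List Bool)
    (b : List Bool) => x.1.1.2[x.1.2]? = some x.2 ∧ x.1.1.2[x.1.2 + 1]? = some b ∧
      Stp x.1.2 x.2 b) ?_
  refine REIn.and (REIn.of_re (RE.eq (by fun_prop) (by fun_prop))) (REIn.and
    (REIn.of_re (RE.eq (by fun_prop) (by fun_prop))) ?_)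
  exact REIn.comp stp_rein (f := fun x : (((((ℕ × List Bool) × List (List Bool)) × ℕ) ×
    List Bool) × List Bool) => ((x.1.1.2, x.1.2), x.2)) (by fun_prop)

/-- the generic set -/
def A : Set ℕ := {n | ∃ e, (sq e)[n]? = some true}

theorem sq_prefix_succ (e : ℕ) : sq e <+: sq (e + 1) := by
  rcases sq_step e with ⟨ρ, h1, h2⟩ | ⟨_, h2⟩
  · rw [h2]
    exact (sel_mem h1).1.trans (List.prefix_append _ _)
  · rw [h2]; exact List.prefix_append _ _

theorem sq_prefix {e f : ℕ} (h : e ≤ f) : sq e <+: sq f := by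
  induction h with
  | refl => exact List.prefix_rfl
  | step _ ih => exact ih.trans (sq_prefix_succ _)

theorem sq_length (e : ℕ) : e ≤ (sq e).length := by
  induction e with
  | zero => exact Nat.zero_le _
  | succ e ih =>
    have h : (sq e).length < (sq (e + 1)).length := by
      rcases sq_step e with ⟨ρ, h1, h2⟩ | ⟨_, h2⟩
      · have := (sel_mem h1).1.length_le
        rw [h2]; simp only [List.length_append, List.length_cons, List.length_nil]
        simp only at this
        omega
      · rw [h2]; simp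
    omega

theorem prefix_getElem? {σ τ : List Bool} (h : σ <+: τ) {n : ℕ} {b : Bool}
    (hn : σ[n]? = some b) : τ[n]? = some b := by
  obtain ⟨t, rfl⟩ := h
  rw [List.getElem?_append_left]
  · exact hn
  · by_contra hc
    rw [List.getElem?_eq_none (by omega)] at hn
    exact absurd hn (by simp)

theorem sq_agree {e f n : ℕ} {b c : Bool} (h1 : (sq e)[n]? = some b)
    (h2 : (sq f)[n]? = some c) : b = c := by
  rcases le_total e f with h | h
  · have := prefix_getElem? (sq_prefix h) h1
    rw [h2] at this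
    exact (Option.some.inj this).symm
  · have := prefix_getElem? (sq_prefix h) h2
    rw [h1] at this
    exact (Option.some.inj this)

theorem mem_A_iff {e n : ℕ} {b : Bool} (h : (sq e)[n]? = some b) : n ∈ A ↔ b = true := by
  constructor
  · rintro ⟨f, hf⟩
    exact sq_agree h hf
  · rintro rfl
    exact ⟨e, h⟩

theorem exists_bit (n : ℕ) : ∃ b, (sq (n + 1))[n]? = some b := by
  have := sq_length (n + 1)
  exact ⟨_, List.getElem?_eq_getElem (by omega)⟩

theorem not_mem_A_iff (n : ℕ) : n ∉ A ↔ ∃ e, (sq e)[n]? = some false := by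
  obtain ⟨b, hb⟩ := exists_bit n
  constructor
  · intro h
    cases b with
    | true => exact absurd ((mem_A_iff hb).2 rfl) h
    | false => exact ⟨_, hb⟩
  · rintro ⟨e, he⟩ h
    exact absurd ((mem_A_iff he).1 h) (by simp)

theorem A_le : TuringReducible (chi A) (chi Hs) := by
  rw [turingReducible_iff]
  have key : ∀ b : Bool, REIn Hs fun n : ℕ => ∃ e, (sq e)[n]? = some b := by
    intro b
    refine REIn.ex (S := fun (n e : ℕ) => (sq e)[n]? = some b) ?_
    have h1 : REIn Hs fun x : ℕ × ℕ => ∃ σ : List Bool, sq x.2 = σ ∧ σ[x.1]? = some b := by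
      refine REIn.ex (S := fun (x : ℕ × ℕ) (σ : List Bool) => sq x.2 = σ ∧ σ[x.1]? = some b) ?_
      refine REIn.and ?_ (REIn.of_re (RE.eq (by fun_prop) (by fun_prop)))
      exact REIn.comp sq_rein (f := fun x : (ℕ × ℕ) × List Bool => (x.1.2, x.2)) (by fun_prop)
    refine h1.of_eq fun x => ?_
    constructor
    · rintro ⟨σ, rfl, h⟩; exact h
    · intro h; exact ⟨_, rfl, h⟩
  refine ⟨key true, (key false).of_eq fun n => (not_mem_A_iff n).symm⟩

/-- `σ` is an initial segment of `A` -/
def Ini (σ : List Bool) : Prop := ∃ e, σ <+: sq e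

/-- genericity -/
theorem generic {W : List Bool → Prop} (hW : REPred W) :
    (∃ σ, Ini σ ∧ W σ) ∨ ∃ e, ∀ τ, sq e <+: τ → ¬ W τ := by
  obtain ⟨e, he⟩ := wst_univ hW
  rcases sq_step e with ⟨ρ, h1, h2⟩ | ⟨h1, h2⟩
  · left
    have h3 := sel_mem h1
    refine ⟨ρ, ⟨e + 1, ?_⟩, (he ρ).2 h3.2⟩
    rw [h2]; exact List.prefix_append _ _
  · right
    refine ⟨e, fun τ hτ hWτ => h1 ⟨τ, hτ, (he τ).1 hWτ⟩⟩

theorem A_not_computable : ¬ ComputablePred (fun n : ℕ => n ∈ A) := by
  intro hA
  -- strings that disagree with `A`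
  have hW : REPred fun σ : List Bool => ∃ n, (σ[n]? = some true ∧ n ∉ A) ∨
      (σ[n]? = some false ∧ n ∈ A) := by
    refine exN (p := fun (σ : List Bool) (n : ℕ) => (σ[n]? = some true ∧ n ∉ A) ∨
      (σ[n]? = some false ∧ n ∈ A)) ?_
    have h1 : REPred fun x : List Bool × ℕ => x.2 ∈ A :=
      RE.comp hA.to_re (f := fun x : List Bool × ℕ => x.2) (by fun_prop)
    have h2 : REPred fun x : List Bool × ℕ => x.2 ∉ A :=
      RE.comp hA.not.to_re (f := fun x : List Bool × ℕ => x.2) (by fun_prop)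
    exact RE.or (RE.and (RE.eq (by fun_prop) (by fun_prop)) h2)
      (RE.and (RE.eq (by fun_prop) (by fun_prop)) h1)
  rcases generic hW with ⟨σ, ⟨e, he⟩, n, h | h⟩ | ⟨e, he⟩
  · exact h.2 ((mem_A_iff (prefix_getElem? he h.1)).2 rfl)
  · exact absurd ((mem_A_iff (prefix_getElem? he h.1)).1 h.2) (by simp)
  · by_cases hn : (sq e).length ∈ A
    · refine he (sq e ++ [false]) (List.prefix_append _ _) ⟨(sq e).length, Or.inr ⟨?_, hn⟩⟩
      simp
    · refine he (sq e ++ [true]) (List.prefix_append _ _) ⟨(sq e).length, Or.inl ⟨?_, hn⟩⟩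
      simp

/-- the information `c` is compatible with the string `σ` -/
def OkS (σ : List Bool) (c : List ℕ × List ℕ) : Prop :=
  (∀ x ∈ c.1, σ[x]? = some true) ∧ ∀ x ∈ c.2, σ[x]? = some false

theorem re_OkS : REPred fun x : List Bool × (List ℕ × List ℕ) => OkS x.1 x.2 := by
  refine RE.and ?_ ?_
  · refine RE.all_mem (p := fun (x : List Bool × (List ℕ × List ℕ)) (y : ℕ) =>
      x.1[y]? = some true) (RE.eq (by fun_prop) (by fun_prop)) (by fun_prop)
  · refine RE.all_mem (p := fun (x : List Bool × (List ℕ × List ℕ)) (y : ℕ) =>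
      x.1[y]? = some false) (RE.eq (by fun_prop) (by fun_prop)) (by fun_prop)

theorem exists_bound (l : List ℕ) : ∃ m, ∀ x ∈ l, x < m := by
  induction l with
  | nil => exact ⟨0, by simp⟩
  | cons a l ih =>
    obtain ⟨m, hm⟩ := ih
    refine ⟨max m (a + 1), ?_⟩
    intro x hx
    rcases List.mem_cons.1 hx with rfl | hx
    · omega
    · have := hm x hx; omega

theorem ok_of_okS {σ : List Bool} {c : List ℕ × List ℕ} (hσ : Ini σ) (h : OkS σ c) :
    Ok A c := by
  obtain ⟨e, he⟩ := hσ
  refine ⟨fun x hx => (mem_A_iff (prefix_getElem? he (h.1 x hx))).2 rfl, fun x hx hA => ?_⟩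
  exact absurd ((mem_A_iff (prefix_getElem? he (h.2 x hx))).1 hA) (by simp)

theorem okS_of_ok {c : List ℕ × List ℕ} (h : Ok A c) (e : ℕ) :
    ∃ f, e ≤ f ∧ OkS (sq f) c := by
  obtain ⟨m1, hm1⟩ := exists_bound c.1
  obtain ⟨m2, hm2⟩ := exists_bound c.2
  refine ⟨e + m1 + m2, by omega, ?_, ?_⟩
  · intro x hx
    have h1 := hm1 x hx
    have h2 := sq_length (e + m1 + m2)
    have h3 : (sq (e + m1 + m2))[x]? = some ((sq (e + m1 + m2))[x]'(by omega)) :=
      List.getElem?_eq_getElem (by omega)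
    rw [h3, (mem_A_iff h3).1 (h.1 x hx)]
  · intro x hx
    have h1 := hm2 x hx
    have h2 := sq_length (e + m1 + m2)
    have h3 : (sq (e + m1 + m2))[x]? = some ((sq (e + m1 + m2))[x]'(by omega)) :=
      List.getElem?_eq_getElem (by omega)
    have h4 := (mem_A_iff h3).not.1 (h.2 x hx)
    rw [h3]
    simpa using h4

/-- Every c.e. set whose complement is c.e. in `A` is computable. -/
theorem no_ce {B : Set ℕ} (hB : REPred fun n => n ∈ B) (hBA : REIn A fun n => n ∉ B) :
    ComputablePred fun n => n ∈ B := by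
  obtain ⟨R, hR, h⟩ := hBA
  have hW : REPred fun σ : List Bool => ∃ n : ℕ, ∃ c : List ℕ × List ℕ,
      (n ∈ B ∧ R n c) ∧ OkS σ c := by
    refine exN (p := fun (σ : List Bool) (n : ℕ) => ∃ c : List ℕ × List ℕ,
      (n ∈ B ∧ R n c) ∧ OkS σ c) ?_
    refine ex (p := fun (x : List Bool × ℕ) (c : List ℕ × List ℕ) =>
      (x.2 ∈ B ∧ R x.2 c) ∧ OkS x.1 c) ?_
    refine RE.and (RE.and ?_ ?_) ?_
    · exact RE.comp hB (f := fun x : (List Bool × ℕ) × (List ℕ × List ℕ) => x.1.2)
        (by fun_prop)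
    · exact RE.comp hR (f := fun x : (List Bool × ℕ) × (List ℕ × List ℕ) => (x.1.2, x.2))
        (by fun_prop)
    · exact RE.comp re_OkS (f := fun x : (List Bool × ℕ) × (List ℕ × List ℕ) => (x.1.1, x.2))
        (by fun_prop)
  rcases generic hW with ⟨σ, hσ, n, c, ⟨h1, h2⟩, h3⟩ | ⟨e, he⟩
  · exact absurd h1 ((h n).2 ⟨c, h2, ok_of_okS hσ h3⟩)
  · refine cp_of_re hB ?_
    have h5 : REPred fun n : ℕ => ∃ τ : List Bool, ∃ c : List ℕ × List ℕ,
        (sq e <+: τ ∧ R n c) ∧ OkS τ c := by
      refine ex (p := fun (n : ℕ) (τ : List Bool) => ∃ c : List ℕ × List ℕ,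
        (sq e <+: τ ∧ R n c) ∧ OkS τ c) ?_
      refine ex (p := fun (x : ℕ × List Bool) (c : List ℕ × List ℕ) =>
        (sq e <+: x.2 ∧ R x.1 c) ∧ OkS x.2 c) ?_
      refine RE.and (RE.and ?_ ?_) ?_
      · exact re_prefix (by fun_prop) (by fun_prop)
      · exact RE.comp hR (f := fun x : (ℕ × List Bool) × (List ℕ × List ℕ) => (x.1.1, x.2))
          (by fun_prop)
      · exact RE.comp re_OkS (f := fun x : (ℕ × List Bool) × (List ℕ × List ℕ) =>
          (x.1.2, x.2)) (by fun_prop)
    refine h5.of_eq fun n => ?_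
    constructor
    · rintro ⟨τ, c, ⟨h6, h7⟩, h8⟩ hnB
      exact he τ h6 ⟨n, c, ⟨hnB, h7⟩, h8⟩
    · intro hn
      obtain ⟨c, hc, hok⟩ := (h n).1 hn
      obtain ⟨f, hf, hf2⟩ := okS_of_ok hok e
      exact ⟨sq f, c, ⟨sq_prefix hf, hc⟩, hf2⟩

end Pool.Agent.V11238.GR
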